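import Pool.Agent.U208.SI.Stm

/-!
Project SI, package SA: sampling of sets by Hoeffding's inequality and a union bound.
-/

set_option autoImplicit false

namespace Pool.Agent.U208.SI

open Finset MeasureTheory ProbabilityTheory
open scoped ENNReal NNReal

/-- Hoeffding's inequality for a function of the coordinates of a product space. -/
theorem SA_hoeff {Ω : Type} [MeasurableSpace Ω] (P : Measure Ω) [IsProbabilityMeasure P] (n : ℕ)
    (f : Ω → ℝ) (hf : Measurable f) (a : ℝ) (hb : ∀ x, f x ∈ Set.Icc a (a + 1)) {t : ℝ}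
    (ht : 0 ≤ t) :
    (Measure.pi fun _ : Fin n => P).real {ω | t * n ≤ ∑ j, (f (ω j) - ∫ x, f x ∂P)} ≤
      Real.exp (-(2 * t ^ 2 * n)) := by
  have hsg : HasSubgaussianMGF (fun x => f x - ∫ x, f x ∂P) ((‖(a + 1) - a‖₊ / 2) ^ 2) P :=
    hasSubgaussianMGF_of_mem_Icc hf.aemeasurable (ae_of_all _ hb)
  have hind : iIndepFun (fun (i : Fin n) (ω : Fin n → Ω) => f (ω i) - ∫ x, f x ∂P)
      (Measure.pi fun _ : Fin n => P) :=
    iIndepFun_pi (X := fun (_ : Fin n) x => f x - ∫ x, f x ∂P)
      fun i => (hf.sub_const _).aemeasurable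
  have hs : ∀ i ∈ (univ : Finset (Fin n)),
      HasSubgaussianMGF (fun ω : Fin n → Ω => f (ω i) - ∫ x, f x ∂P)
        ((‖(a + 1) - a‖₊ / 2) ^ 2) (Measure.pi fun _ : Fin n => P) := by
    intro i _
    have h1 : HasSubgaussianMGF (fun x => f x - ∫ x, f x ∂P) ((‖(a + 1) - a‖₊ / 2) ^ 2)
        ((Measure.pi fun _ : Fin n => P).map (fun ω => ω i)) := by
      have := (measurePreserving_eval (fun _ : Fin n => P) i).map_eq
      rw [show (fun ω : Fin n → Ω => ω i) = Function.eval i from rfl, this]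
      exact hsg
    have hm : AEMeasurable (fun ω : Fin n → Ω => ω i) (Measure.pi fun _ : Fin n => P) :=
      (measurable_pi_apply i).aemeasurable
    exact HasSubgaussianMGF.of_map hm h1
  have h := HasSubgaussianMGF.measure_sum_ge_le_of_iIndepFun hind
    (c := fun _ => (‖(a + 1) - a‖₊ / 2) ^ 2) hs (ε := t * n) (by positivity)
  refine h.trans (Real.exp_le_exp.2 ?_)
  have e1 : (‖(a + 1) - a‖₊ : ℝ≥0) = 1 := by
    have : (a + 1) - a = 1 := by ring
    rw [this]; simp
  simp only [e1]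
  rcases Nat.eq_zero_or_pos n with hn | hn
  · subst hn; simp
  · have hn' : (0 : ℝ) < n := by exact_mod_cast hn
    rw [sum_const, card_univ, Fintype.card_fin]
    push_cast
    rw [nsmul_eq_mul, div_le_iff₀ (by positivity)]
    apply le_of_eq
    ring

theorem SA_card {Ω : Type} {n : ℕ} (ω : Fin n → Ω) (S : Set Ω)
    [DecidablePred fun j => ω j ∈ S] :
    (((univ : Finset (Fin n)).filter fun j => ω j ∈ S).card : ℝ) =
      ∑ j, S.indicator (fun _ => (1 : ℝ)) (ω j) := by
  rw [card_filter]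
  push_cast
  refine sum_congr rfl fun j _ => ?_
  by_cases h : ω j ∈ S <;> simp [h]

theorem SA_ok : S_SA := by
  intro τ ε hτ hε
  obtain ⟨δ, hδ, hδ1, hδ2⟩ : ∃ δ : ℝ, 0 < δ ∧ δ ≤ 2 * τ ^ 2 ∧ δ ≤ 2 * (ε / 2) ^ 2 :=
    ⟨min (2 * τ ^ 2) (2 * (ε / 2) ^ 2), lt_min (by positivity) (by positivity),
      min_le_left _ _, min_le_right _ _⟩
  refine ⟨3 / δ, by positivity, ?_⟩
  intro Ω _ P _ V _ _ B R c hB hc hR n hn
  classical
  set Q := Measure.pi fun _ : Fin n => P with hQ
  have hV : 1 ≤ (Fintype.card V : ℝ) := by exact_mod_cast Fintype.card_pos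
  have hlog : 0 ≤ Real.log (Fintype.card V) := Real.log_nonneg hV
  have hδn : 3 + 3 * Real.log (Fintype.card V) ≤ δ * n := by
    have := mul_le_mul_of_nonneg_left hn hδ.le
    have e : δ * (3 / δ * (1 + Real.log (Fintype.card V))) =
        3 + 3 * Real.log (Fintype.card V) := by field_simp
    linarith
  -- the bad events
  let E : V → Set (Fin n → Ω) := fun v => {ω | τ * n ≤ ∑ j,
    (-(B v).indicator (fun _ => (1 : ℝ)) (ω j) - ∫ x, -(B v).indicator (fun _ => (1 : ℝ)) x ∂P)}
  let F : V × V → Set (Fin n → Ω) := fun u => {ω | ε / 2 * n ≤ ∑ j,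
    ((B u.1 ∩ B u.2).indicator (fun _ => (1 : ℝ)) (ω j) -
      ∫ x, (B u.1 ∩ B u.2).indicator (fun _ => (1 : ℝ)) x ∂P)}
  have hE : ∀ v, Q.real (E v) ≤ Real.exp (-(δ * n)) := by
    intro v
    refine (SA_hoeff P n (fun x => -(B v).indicator (fun _ => (1 : ℝ)) x) ?_ (-1) ?_
      hτ.le).trans ?_
    · exact (measurable_const.indicator (hB v)).neg
    · intro x
      by_cases h : x ∈ B v <;> simp [h]
    · apply Real.exp_le_exp.2
      have := mul_le_mul_of_nonneg_right hδ1 (Nat.cast_nonneg (α := ℝ) n)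
      linarith
  have hF : ∀ u, Q.real (F u) ≤ Real.exp (-(δ * n)) := by
    intro u
    refine (SA_hoeff P n (fun x => (B u.1 ∩ B u.2).indicator (fun _ => (1 : ℝ)) x) ?_ 0 ?_
      (by positivity)).trans ?_
    · exact (measurable_const.indicator ((hB u.1).inter (hB u.2)))
    · intro x
      by_cases h : x ∈ B u.1 ∩ B u.2 <;> simp [h]
    · apply Real.exp_le_exp.2
      have := mul_le_mul_of_nonneg_right hδ2 (Nat.cast_nonneg (α := ℝ) n)
      linarith
  have hbad : Q.real ((⋃ v, E v) ∪ ⋃ u, F u) < 1 := by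
    have h1 : Q.real (⋃ v, E v) ≤ ∑ v, Q.real (E v) := measureReal_iUnion_fintype_le _
    have h2 : Q.real (⋃ u, F u) ≤ ∑ u, Q.real (F u) := measureReal_iUnion_fintype_le _
    have h3 : ∑ v, Q.real (E v) ≤ Fintype.card V * Real.exp (-(δ * n)) := by
      refine (sum_le_sum fun v _ => hE v).trans ?_
      simp
    have h4 : ∑ u, Q.real (F u) ≤ (Fintype.card V) ^ 2 * Real.exp (-(δ * n)) := by
      refine (sum_le_sum fun u _ => hF u).trans ?_
      simp [pow_two]
    have h5 : Q.real ((⋃ v, E v) ∪ ⋃ u, F u) ≤ 2 * (Fintype.card V) ^ 2 * Real.exp (-(δ * n)) := by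
      refine (measureReal_union_le _ _).trans ?_
      have hV2 : (Fintype.card V : ℝ) ≤ (Fintype.card V) ^ 2 := by nlinarith
      have := mul_le_mul_of_nonneg_right hV2 (Real.exp_pos (-(δ * n))).le
      linarith
    refine h5.trans_lt ?_
    have h6 : Real.exp (-(δ * n)) ≤ Real.exp (-3) * ((Fintype.card V : ℝ) ^ 3)⁻¹ := by
      have e : ((Fintype.card V : ℝ) ^ 3)⁻¹ = Real.exp (-(3 * Real.log (Fintype.card V))) := by
        rw [Real.exp_neg]
        congr 1
        rw [← Real.exp_log (show (0 : ℝ) < (Fintype.card V : ℝ) ^ 3 by positivity), Real.log_pow]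
        norm_num
      rw [e, ← Real.exp_add]
      apply Real.exp_le_exp.2
      linarith
    have h7 : Real.exp (-3) < 1 / 2 := by
      rw [Real.exp_neg, one_div]
      apply inv_strictAnti₀ (by norm_num)
      have := Real.add_one_lt_exp (show (3 : ℝ) ≠ 0 by norm_num)
      linarith
    have hVp : (0 : ℝ) < Fintype.card V := by linarith
    calc 2 * (Fintype.card V : ℝ) ^ 2 * Real.exp (-(δ * n))
        ≤ 2 * (Fintype.card V : ℝ) ^ 2 * (Real.exp (-3) * ((Fintype.card V : ℝ) ^ 3)⁻¹) := by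
          gcongr
      _ = 2 * Real.exp (-3) * (Fintype.card V : ℝ)⁻¹ := by
          field_simp
      _ ≤ 2 * Real.exp (-3) * 1 := by
          gcongr
          exact inv_le_one_of_one_le₀ hV
      _ < 1 := by linarith
  obtain ⟨ω, hω⟩ : ∃ ω, ω ∉ (⋃ v, E v) ∪ ⋃ u, F u := by
    by_contra hcon
    push Not at hcon
    have : (⋃ v, E v) ∪ ⋃ u, F u = Set.univ := Set.eq_univ_of_forall hcon
    rw [this] at hbad
    simp [hQ] at hbad
  simp only [Set.mem_union, Set.mem_iUnion, not_or, not_exists] at hω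
  have hint : ∀ S : Set Ω, MeasurableSet S → ∫ x, S.indicator (fun _ => (1 : ℝ)) x ∂P = P.real S := by
    intro S hS
    rw [integral_indicator hS]
    simp
  have hn0 : 0 < n := by
    rcases Nat.eq_zero_or_pos n with h | h
    · subst h
      simp at hδn
      linarith
    · exact h
  have hn' : (0 : ℝ) < n := by exact_mod_cast hn0
  refine ⟨fun v => univ.filter fun j => ω j ∈ B v, ?_, ?_⟩
  · intro v
    have h := hω.1 v
    simp only [E, Set.mem_ofPred_eq, not_le] at h
    show c * n < (((univ : Finset (Fin n)).filter fun j => ω j ∈ B v).card : ℝ)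
    rw [SA_card ω (B v)]
    rw [sum_sub_distrib, sum_neg_distrib, sum_const, card_univ, Fintype.card_fin, nsmul_eq_mul,
      integral_neg, hint _ (hB v)] at h
    have h2 := mul_le_mul_of_nonneg_left (hc v) hn'.le
    linarith
  · intro u v huv
    have h := hω.2 (u, v)
    simp only [F, Set.mem_ofPred_eq, not_le] at h
    have e : ((univ.filter fun j => ω j ∈ B u) ∩ univ.filter fun j => ω j ∈ B v) =
        univ.filter fun j => ω j ∈ B u ∩ B v := by
      ext j; simp
    rw [e, SA_card ω (B u ∩ B v)]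
    rw [sum_sub_distrib, sum_const, card_univ, Fintype.card_fin, nsmul_eq_mul,
      hint _ ((hB u).inter (hB v))] at h
    have h2 := mul_le_mul_of_nonneg_left (hR u v huv) hn'.le
    linarith

end Pool.Agent.U208.SI
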